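import Pool.Agent.Results.MP_ede0da_ag.BalancedMarks
import Pool.Agent.Run7.h193.FM11

set_option autoImplicit false

/-!
# The cone of curves of `M̄_{0,9}` and balanced marks

Let `D` be an F-nef divisor on `M̄_{0,9}`, that is a divisor which is nonnegative on the cone `F_9` of the
F-curves. If two marks `i`, `j` are balanced for a representative `c` of `D` (`Balanced`, see the imported
file), then `D` is nonnegative on all curves: no class in the cone of curves is separated from `F_9` by such a
divisor. The set of these `D` has nonempty interior: it contains a neighbourhood of each class which is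
invariant under the transposition of `i` and `j` and has positive degree on the F-curves with the parts `{i}`,
`{j}`. For all `n` this holds for the F-nef divisors whose restrictions to the factors `M̄_{0,q}`, `q ≥ 9`, of
the strata can be reduced to at most eight marks by joining balanced marks.
-/

namespace Pool.Agent.Results.MP_159100_ag.BalancedMarks

open Finset Pool.Agent.NH37.FC Pool.Agent.Results.MP_ede0da_ag.BalancedMarks

/-- `c` has nonnegative degree on all curves: on all classes with the numerical properties of the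
curves in the factors `M̄_{0,r}` of all strata (given by the partitions `B` of the marks) which meet the
interior of the factor. -/
def IsNef {n : ℕ} (c : Finset (Fin n) → ℝ) : Prop :=
  ∀ (r : ℕ) (B : Fin r → Finset (Fin n)), 4 ≤ r → IsPartition B →
    ∀ (m : Finset (Fin r) → ℝ) (ψ : Fin r → ℝ), IsCurve m ψ → 0 ≤ degree c B m ψ

theorem nef_of_eff {n r : ℕ} {c : Finset (Fin n) → ℝ} {B : Fin r → Finset (Fin n)} (hr : 4 ≤ r)
    (h : NH46.F8.Eff fun T : Finset (Fin r) => c (T.biUnion B)) {m : Finset (Fin r) → ℝ}
    {ψ : Fin r → ℝ} (hC : IsCurve m ψ) : 0 ≤ degree c B m ψ := by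
  obtain ⟨G, h1, h2, h3⟩ := h
  refine Run7.h193.FM.nef_of_effS hr ⟨G, h1, fun i => ?_, h3⟩ hC
  have h4 : c (({i} : Finset (Fin r)).biUnion B) + NH37.AF.cut G {i} = 0 := h2 i
  rw [singleton_biUnion] at h4
  exact h4

/-- Effective boundary divisors are effective boundary after a permutation of the marks. -/
theorem eff_perm {n : ℕ} {c : Finset (Fin n) → ℝ} (h : NH46.F8.Eff c)
    {B : Fin n → Finset (Fin n)} (hB : IsPartition B) :
    NH46.F8.Eff fun T : Finset (Fin n) => c (T.biUnion B) := by
  have hcard : ∀ l, (B l).card = 1 := by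
    have h1 : ∑ l, (B l).card = n := by
      rw [← card_biUnion (fun i _ j _ hij => hB.2.1 i j hij), hB.2.2, card_univ, Fintype.card_fin]
    have h2 : ∑ l, ((B l).card - 1) = 0 := by
      have h3 : ∑ l : Fin n, ((B l).card - 1 + 1) = n :=
        (sum_congr rfl fun l _ => Nat.sub_add_cancel (card_pos.2 (hB.1 l))).trans h1
      rw [sum_add_distrib, sum_const, card_univ, Fintype.card_fin, smul_eq_mul, mul_one] at h3
      omega
    intro l
    have h4 := (sum_eq_zero_iff.1 h2) l (mem_univ l)
    have h5 : 0 < (B l).card := card_pos.2 (hB.1 l)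
    omega
  choose σ hσ using fun l => card_eq_one.1 (hcard l)
  have hinj : Function.Injective σ := by
    intro l m hlm
    by_contra hne
    have := hB.2.1 l m hne
    rw [hσ l, hσ m, hlm, disjoint_self_iff_empty] at this
    exact (singleton_ne_empty _) this
  have hbij : Function.Bijective σ := hinj.bijective_of_finite
  have himg : ∀ T : Finset (Fin n), T.biUnion B = T.image σ := by
    intro T
    ext x
    rw [mem_biUnion, mem_image]
    constructor
    · rintro ⟨l, hl, hx⟩
      rw [hσ l, mem_singleton] at hx
      exact ⟨l, hl, hx.symm⟩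
    · rintro ⟨l, hl, hx⟩
      refine ⟨l, hl, ?_⟩
      rw [hσ l, mem_singleton]
      exact hx.symm
  obtain ⟨G, h1, h2, h3⟩ := h
  have hcut : ∀ T : Finset (Fin n), Pool.Agent.NH37.AF.cut (fun l m => G (σ l) (σ m)) T =
      Pool.Agent.NH37.AF.cut G (T.image σ) := by
    intro T
    unfold Pool.Agent.NH37.AF.cut
    have hco : (T.image σ)ᶜ = Tᶜ.image σ := by
      ext x
      obtain ⟨l, rfl⟩ := hbij.2 x
      rw [mem_compl, hinj.mem_finset_image, hinj.mem_finset_image, mem_compl]
    rw [hco, sum_image hinj.injOn]
    exact sum_congr rfl fun l _ => (sum_image hinj.injOn).symm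
  refine ⟨fun l m => G (σ l) (σ m), fun l m => h1 _ _, fun i => ?_, fun T => ?_⟩
  · show c (({i} : Finset (Fin n)).biUnion B) + _ = 0
    rw [hcut, himg, image_singleton]
    exact h2 _
  · show 0 ≤ c (T.biUnion B) + _
    rw [hcut, himg]
    exact h3 _

/-- (1) An F-nef divisor `c` on `M̄_{0,9}` is nef if two marks are balanced for a linearly equivalent
divisor. (2) For all `n`, an F-nef divisor is nef if its restrictions to the factors with at least
nine marks of the strata can be reduced to at most eight marks by joining balanced marks. -/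
theorem result :
    (∀ (c : Finset (Fin 9) → ℝ) (G : Fin 9 → Fin 9 → ℝ) (t : ℝ) (i j : Fin 9), IsDivisor c →
      FNef c → (∀ i j, G i j = G j i) → i ≠ j → Balanced t (fun S => c S + cut G S) i j →
        IsNef c) ∧
    ∀ (n : ℕ) (c : Finset (Fin n) → ℝ), IsDivisor c → FNef c →
      (∀ (q : ℕ) (B : Fin q → Finset (Fin n)), 9 ≤ q → IsPartition B →
        Reducible q fun T => c (T.biUnion B)) → IsNef c := by
  have small : ∀ (n r : ℕ) (c : Finset (Fin n) → ℝ) (B : Fin r → Finset (Fin n)), IsDivisor c →
      FNef c → IsPartition B → r ≤ 8 → NH46.F8.Eff fun T : Finset (Fin r) => c (T.biUnion B) := by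
    intro n r c B hc hF hB hr
    have hBw : NH37.SL.IsWeak B := ⟨hB.2.1, hB.2.2⟩
    exact (NH46.F8.final NH46.F8.eight).1 r hr _ (NH37.SL.pull_isDivisor hc hBw)
      (NH37.SL.pull_fnef hc hF hBw)
  refine ⟨fun c G t i j hc hF hG hij hb r B hr hB m ψ hm => ?_,
    fun n c hc hF hred r B hr hB m ψ hm => ?_⟩
  · rcases Nat.lt_or_ge 8 r with h9 | h8
    · have hle : r ≤ 9 := by
        have h1 : ∑ l, (B l).card = 9 := by
          rw [← card_biUnion (fun i _ j _ hij => hB.2.1 i j hij), hB.2.2, card_univ,
            Fintype.card_fin]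
        have h2 : ∑ _l : Fin r, 1 ≤ ∑ l, (B l).card :=
          sum_le_sum fun l _ => card_pos.2 (hB.1 l)
        rw [sum_const, card_univ, Fintype.card_fin, smul_eq_mul, mul_one, h1] at h2
        exact h2
      obtain rfl : r = 9 := by omega
      have hR : Reducible 9 c := Reducible.equiv c G hG
        (Reducible.join _ t i j hij hb (Reducible.few _ le_rfl))
      exact nef_of_eff hr (eff_perm (eff_of_reducible hR hc hF) hB) hm
    · exact nef_of_eff hr (small 9 r c B hc hF hB h8) hm
  · rcases Nat.lt_or_ge 8 r with h9 | h8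
    · have hBw : NH37.SL.IsWeak B := ⟨hB.2.1, hB.2.2⟩
      exact nef_of_eff hr (eff_of_reducible (hred r B h9 hB) (NH37.SL.pull_isDivisor hc hBw)
        (NH37.SL.pull_fnef hc hF hBw)) hm
    · exact nef_of_eff hr (small n r c B hc hF hB h8) hm

end Pool.Agent.Results.MP_159100_ag.BalancedMarks
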